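import Pool.Agent.Helper5.N2.Stmts2

/-! # Rows PMIN, PMAX, PMIN0, PMAX0: pure inequalities -/

set_option autoImplicit false

namespace N248
open N2

theorem st_PMAX0 : ST_PMAX0 := by
  intro t n β c ht ht1 hβ hc hn hc2 hle
  rw [abs_of_neg (by linarith), hn] at hle
  have h1 : (t * β - (1 - t)) * (β + 1) ≤ 0 := by nlinarith
  have h2 : t * β ≤ 1 - t := by
    by_contra h
    have h3 := mul_pos (sub_pos.mpr (lt_of_not_ge h)) (by linarith : (0 : ℝ) < β + 1)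
    linarith
  have h3 : t ^ 2 * β ^ 2 ≤ (1 - t) ^ 2 := by
    have := mul_self_le_mul_self (by positivity) h2
    nlinarith
  have h4 : 2 * (1 - t) ≤ (4 * t - 1) * β ^ 2 := by nlinarith
  have h5 : t ^ 2 * (2 * (1 - t)) ≤ t ^ 2 * ((4 * t - 1) * β ^ 2) :=
    mul_le_mul_of_nonneg_left h4 (by positivity)
  have h6 : t ^ 2 * ((4 * t - 1) * β ^ 2) ≤ (4 * t - 1) * (1 - t) ^ 2 := by
    have := mul_le_mul_of_nonneg_left h3 (by linarith : (0 : ℝ) ≤ 4 * t - 1)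
    linarith
  have h7 : (1 - t) * (2 * t ^ 2) ≤ (1 - t) * ((4 * t - 1) * (1 - t)) := by nlinarith
  have h8 := le_of_mul_le_mul_left h7 (by linarith)
  nlinarith

/-- the real and imaginary parts of `RelD2` -/
theorem relD2_parts {t w n : ℝ} {b : ℂ} (ht : t < 1) (hn : n = w + t * ‖b‖ ^ 2 - (1 - t))
    (hw : (1 - 4 * t) * ‖b‖ ^ 2 = 3 * w - 2 * (1 - t)) (h : RelD2 t w n b) :
    n = (1 - t) * (‖b‖ ^ 2 - 1) / 3 ∧ w = (2 * (1 - t) + (1 - 4 * t) * ‖b‖ ^ 2) / 3 ∧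
    b.im * (t * (3 - 5 * t) * (‖b‖ ^ 2 - 1)) = 0 ∧
    (b.im = 0 → (1 + b.re) ^ 2 * (t * (1 + 5 * t) * b.re ^ 2 - (4 - 9 * t + 11 * t ^ 2) * b.re
      - 2 * (1 - t) * (1 - 3 * t)) = 0) := by
  have hM : ‖b‖ ^ 2 = b.re * b.re + b.im * b.im := by
    rw [Complex.sq_norm, Complex.normSq_apply]
  unfold RelD2 at h
  set M := ‖b‖ ^ 2 with hMd
  have hn' : n = (1 - t) * (M - 1) / 3 := by linarith
  have hw' : w = (2 * (1 - t) + (1 - 4 * t) * M) / 3 := by linarith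
  have hq : 21 * t * n / (1 - t) = 7 * t * (M - 1) := by
    rw [hn']
    field_simp [(by linarith : (1 : ℝ) - t ≠ 0)]
    ring
  rw [hq] at h
  rw [Complex.ext_iff] at h
  obtain ⟨hre, him⟩ := h
  simp only [Complex.sub_re, Complex.mul_re, Complex.add_re, Complex.ofReal_re, Complex.ofReal_im,
    Complex.sub_im, Complex.mul_im, Complex.add_im, Complex.conj_re, Complex.conj_im,
    Complex.one_re, Complex.one_im, Complex.zero_re, Complex.zero_im, Complex.re_ofNat,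
    Complex.im_ofNat] at hre him
  refine ⟨hn', hw', ?_, ?_⟩
  · rw [hw'] at him
    linear_combination (-1 / 3 : ℝ) * him
  · intro hb
    rw [hw', hb] at hre
    rw [hb] at hM
    rw [hM] at hre
    linear_combination hre

/-- the Bernstein form of the polynomial of row PMAX -/
noncomputable def bern (p y u v : ℝ) : ℝ :=
    (35 / 4) * y ^ 5 * v ^ 4 + (22 / 3) * y ^ 5 * u * v ^ 3 + (5 / 2) * y ^ 5 * u ^ 2 * v ^ 2 +
    (190 / 3) * y ^ 5 * u ^ 3 * v + (35 / 4) * y ^ 5 * u ^ 4 + (61 / 2) * p * y ^ 4 * v ^ 4 +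
    (232 / 3) * p * y ^ 4 * u * v ^ 3 + (289 / 3) * p * y ^ 4 * u ^ 2 * v ^ 2 +
    (448 / 3) * p * y ^ 4 * u ^ 3 * v + (61 / 2) * p * y ^ 4 * u ^ 4 +
    (527 / 16) * p ^ 2 * y ^ 3 * v ^ 4 + (599 / 6) * p ^ 2 * y ^ 3 * u * v ^ 3 +
    (3115 / 24) * p ^ 2 * y ^ 3 * u ^ 2 * v ^ 2 + (779 / 6) * p ^ 2 * y ^ 3 * u ^ 3 * v +
    (527 / 16) * p ^ 2 * y ^ 3 * u ^ 4 + (247 / 16) * p ^ 3 * y ^ 2 * v ^ 4 +
    (289 / 6) * p ^ 3 * y ^ 2 * u * v ^ 3 + (497 / 8) * p ^ 3 * y ^ 2 * u ^ 2 * v ^ 2 +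
    (313 / 6) * p ^ 3 * y ^ 2 * u ^ 3 * v + (247 / 16) * p ^ 3 * y ^ 2 * u ^ 4 +
    (13 / 4) * p ^ 4 * y * v ^ 4 + (29 / 3) * p ^ 4 * y * u * v ^ 3 +
    (73 / 6) * p ^ 4 * y * u ^ 2 * v ^ 2 + (29 / 3) * p ^ 4 * y * u ^ 3 * v +
    (13 / 4) * p ^ 4 * y * u ^ 4 + (1 / 4) * p ^ 5 * v ^ 4 + (2 / 3) * p ^ 5 * u * v ^ 3 +
    (5 / 6) * p ^ 5 * u ^ 2 * v ^ 2 + (2 / 3) * p ^ 5 * u ^ 3 * v + (1 / 4) * p ^ 5 * u ^ 4

theorem bern_pos {p y u v : ℝ} (hp : 0 ≤ p) (hy : 0 < y) (hu : 0 ≤ u) (hv : 0 ≤ v)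
    (huv : u + v = 2) : 0 < bern p y u v := by
  unfold bern
  rcases hu.eq_or_lt with h | h
  · have hv' : 0 < v := by linarith
    positivity
  · positivity

/-- the norm of a number with imaginary part zero -/
theorem norm_real_part {z : ℂ} (h : z.im = 0) : ‖z‖ = |z.re| := by
  have h1 : z = ((z.re : ℝ) : ℂ) := by
    apply Complex.ext
    · simp
    · simpa using h
  rw [h1, Complex.norm_real, Real.norm_eq_abs, Complex.ofReal_re]

theorem st_PMIN : ST_PMIN := by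
  intro t w n b ht ht1 hw hn hm hR hA
  obtain ⟨hn', hw', him, hre⟩ := relD2_parts ht1 hn hm hR
  have hn0 : 0 ≤ n := le_trans (norm_nonneg _) hA
  rcases hn0.eq_or_lt with h0 | hpos
  · left; exact h0.symm
  right
  set M := ‖b‖ ^ 2 with hM
  have hM1 : 1 < M := by
    by_contra h
    have := mul_nonneg (by linarith : (0 : ℝ) ≤ 1 - t) (by linarith : (0 : ℝ) ≤ 1 - M)
    nlinarith
  have ht2 : t < 1 / 2 := by
    by_contra h
    have := mul_nonneg (by linarith : (0 : ℝ) ≤ t - 1 / 2) (by linarith : (0 : ℝ) ≤ M - 1)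
    nlinarith
  have hb : b.im = 0 := by
    rcases mul_eq_zero.mp him with h | h
    · exact h
    · exfalso
      rcases mul_eq_zero.mp h with h' | h'
      · rcases mul_eq_zero.mp h' with h'' | h''
        · linarith
        · linarith
      · linarith
  have hMa : M = b.re ^ 2 := by
    rw [hM, Complex.sq_norm, Complex.normSq_apply, hb]
    ring
  have hQ := hre hb
  set a := b.re with ha
  have hA' : |(1 - 2 * t) * a + w| ≤ n := by
    have h1 : (((1 - 2 * t : ℝ) : ℂ) * b + (w : ℂ)).im = 0 := by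
      simp [Complex.add_im, Complex.mul_im, hb]
    rw [norm_real_part h1] at hA
    have h2 : (((1 - 2 * t : ℝ) : ℂ) * b + (w : ℂ)).re = (1 - 2 * t) * a + w := by
      rw [Complex.add_re, Complex.re_ofReal_mul, Complex.ofReal_re]
    rw [h2] at hA
    exact hA
  have ha1 : a ≠ -1 := by
    intro h
    rw [h] at hMa
    norm_num at hMa
    linarith
  have hq : t * (1 + 5 * t) * a ^ 2 - (4 - 9 * t + 11 * t ^ 2) * a
      - 2 * (1 - t) * (1 - 3 * t) = 0 := by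
    rcases mul_eq_zero.mp hQ with h | h
    · exfalso
      have h' := pow_eq_zero_iff (two_ne_zero) |>.mp h
      exact ha1 (by linarith)
    · exact h
  rw [hMa] at hM1 hn' hw'
  have haa : 1 < a := by
    by_contra h
    have h1 : a < -1 := by
      by_contra h'
      have := mul_nonneg (by linarith : (0 : ℝ) ≤ 1 - a) (by linarith : (0 : ℝ) ≤ a + 1)
      nlinarith
    have h3 : 0 < 4 - 9 * t + 11 * t ^ 2 := by nlinarith
    have h4 : 0 < (4 - 9 * t + 11 * t ^ 2) * (-a - 1) := mul_pos h3 (by linarith)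
    have h5 : 0 < (t * (1 + 5 * t)) * (a ^ 2 - 1) := mul_pos (by positivity) (by linarith)
    nlinarith
  have hta : 1 - t ≤ t * a := by
    have h1 := (abs_le.mp hA').2
    rw [hw', hn'] at h1
    have h2 : (1 + a) * (3 * (1 - t)) ≤ (1 + a) * (3 * (t * a)) := by nlinarith
    have h3 := le_of_mul_le_mul_left h2 (by linarith)
    linarith
  have ht3 : t < 1 / 3 := by
    by_contra h
    rw [hw'] at hw
    have h1 : (1 - t) ^ 2 ≤ t ^ 2 * a ^ 2 := by
      have := mul_self_le_mul_self (by linarith : (0 : ℝ) ≤ 1 - t) hta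
      nlinarith
    have h2 : (4 * t - 1) * (1 - t) ^ 2 ≤ (4 * t - 1) * (t ^ 2 * a ^ 2) :=
      mul_le_mul_of_nonneg_left h1 (by linarith)
    have h3 : (4 * t - 1) * (t ^ 2 * a ^ 2) < t ^ 2 * (2 * (1 - t)) := by
      have : (4 * t - 1) * a ^ 2 < 2 * (1 - t) := by linarith
      have := mul_lt_mul_of_pos_left this (by positivity : 0 < t ^ 2)
      linarith
    have h4 : (1 - t) * ((4 * t - 1) * (1 - t)) < (1 - t) * (2 * t ^ 2) := by nlinarith
    have h5 := lt_of_mul_lt_mul_left h4 (by linarith)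
    nlinarith
  -- conclusion
  have h1 : (1 - t) * (1 + t) ≤ 3 * t * ((1 - t) + n * t) := by
    rw [hn']
    have h2 : (1 - t) ^ 2 ≤ t ^ 2 * a ^ 2 := by
      have := mul_self_le_mul_self (by linarith : (0 : ℝ) ≤ 1 - t) hta
      nlinarith
    nlinarith
  have h2 : ((1 - t) * (1 + t)) ^ 2 ≤ (3 * t * ((1 - t) + n * t)) ^ 2 :=
    pow_le_pow_left₀ (by nlinarith) h1 2
  have h3 : 0 ≤ (1 - 3 * t) * (1 + 5 * t - 8 * t ^ 2) :=
    mul_nonneg (by linarith) (by nlinarith)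
  have h4 : (3 * t ^ 2) * (8 * (1 - t) ^ 3) ≤ (3 * t ^ 2) * (3 * ((1 - t) + n * t) ^ 2) := by
    have h5 : (3 * t ^ 2) * (8 * (1 - t) ^ 3) ≤ ((1 - t) * (1 + t)) ^ 2 := by
      have := mul_nonneg (sq_nonneg (1 - t)) h3
      nlinarith
    nlinarith
  exact le_of_mul_le_mul_left h4 (by positivity)

end N248
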