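import Pool.Agent.Helper48.N2.N2P

/-! # Rows PMAX and PMIN0 -/

set_option autoImplicit false

namespace N248
open N2

/-- the polynomial of row PMAX, homogenised -/
theorem khat_hom (t a y m D : ℝ) :
    (y * (2 * y + m * a ^ 2) * ((1 - 16 * t + 24 * t ^ 2) * a ^ 2
      + 8 * y * (1 - 2 * t) * a + 2 * y * (3 - 4 * t))
      + y ^ 2 * (4 * y + 3 * (1 - 3 * t) * a - y * a ^ 2) ^ 2
      - (1 + t) * (2 * y + m * a ^ 2) * ((2 * y + m * a) ^ 2
        + y ^ 2 * (a - 1) ^ 2)) * D ^ 4 =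
    y * (2 * y * D ^ 2 + m * (a * D) ^ 2) * ((1 - 16 * t + 24 * t ^ 2) * (a * D) ^ 2
      + 8 * y * (1 - 2 * t) * (a * D) * D + 2 * y * (3 - 4 * t) * D ^ 2)
      + y ^ 2 * (4 * y * D ^ 2 + 3 * (1 - 3 * t) * (a * D) * D - y * (a * D) ^ 2) ^ 2
      - (1 + t) * (2 * y * D ^ 2 + m * (a * D) ^ 2) * ((2 * y * D + m * (a * D)) ^ 2
        + y ^ 2 * (a * D - D) ^ 2) := by
  ring

theorem bern_id (t r a : ℝ)
    (ha : a * (r * (1 - t) + 4 * t - 1) = (1 - t) * (2 + r)) :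
    ((1 - t) * (2 * (1 - t) + (1 - 4 * t) * a ^ 2) * ((1 - 16 * t + 24 * t ^ 2) * a ^ 2
      + 8 * (1 - t) * (1 - 2 * t) * a + 2 * (1 - t) * (3 - 4 * t))
      + (1 - t) ^ 2 * (4 * (1 - t) + 3 * (1 - 3 * t) * a - (1 - t) * a ^ 2) ^ 2
      - (1 + t) * (2 * (1 - t) + (1 - 4 * t) * a ^ 2) * ((2 * (1 - t) + (1 - 4 * t) * a) ^ 2
        + (1 - t) ^ 2 * (a - 1) ^ 2)) * (r * (1 - t) + 4 * t - 1) ^ 4 =
    - (1 - t) ^ 3 * bern (8 * t - 5) (1 - t) (1 + r) (1 - r) := by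
  rw [khat_hom t a (1 - t) (1 - 4 * t), ha]
  unfold bern
  ring

/-- the end of row PMAX -/
theorem pmax_end {t a r : ℝ} (ht : 5 / 8 ≤ t) (ht1 : t < 1) (hr1 : |r| ≤ 1)
    (h7 : 2 * (1 - t) + (1 - 4 * t) * a = r * (1 - t) * (a - 1))
    (hK2 : (1 - t) * (2 * (1 - t) + (1 - 4 * t) * a ^ 2) * ((1 - 16 * t + 24 * t ^ 2) * a ^ 2
      + 8 * (1 - t) * (1 - 2 * t) * a + 2 * (1 - t) * (3 - 4 * t))
      + (1 - t) ^ 2 * (4 * (1 - t) + 3 * (1 - 3 * t) * a - (1 - t) * a ^ 2) ^ 2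
      - (1 + t) * (2 * (1 - t) + (1 - 4 * t) * a ^ 2) * ((2 * (1 - t) + (1 - 4 * t) * a) ^ 2
        + (1 - t) ^ 2 * (a - 1) ^ 2) = 0) : False := by
  have hrl := (abs_le.mp hr1).1
  have hru := (abs_le.mp hr1).2
  have haD : a * (r * (1 - t) + 4 * t - 1) = (1 - t) * (2 + r) := by
    linear_combination (-1 : ℝ) * h7
  have h8 := bern_id t r a haD
  rw [hK2, zero_mul] at h8
  have h9 := bern_pos (p := 8 * t - 5) (y := 1 - t) (u := 1 + r) (v := 1 - r) (by linarith)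
    (by linarith) (by linarith) (by linarith) (by ring)
  have h10 : 0 < (1 - t) ^ 3 * bern (8 * t - 5) (1 - t) (1 + r) (1 - r) :=
    mul_pos (pow_pos (by linarith) 3) h9
  have h11 : 0 = -((1 - t) ^ 3 * bern (8 * t - 5) (1 - t) (1 + r) (1 - r)) := by
    rw [h8]; ring
  exact absurd h11 (neg_neg_of_pos h10).ne'

/-- the relation `RelDD` for real `b`, multiplied by `9 w (1 - t)` -/
theorem relDD_real {t a w n Z Q Y : ℝ} (hn' : n = (1 - t) * (a ^ 2 - 1) / 3)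
    (hw' : w = (2 * (1 - t) + (1 - 4 * t) * a ^ 2) / 3)
    (hZ' : Z * w = (1 - t) * (2 * ((1 - 2 * t) * a + w) - t * a ^ 2 * a + (1 - t) * a) ^ 2)
    (hQ' : Q * (1 - t) = 9 * t * n * w) (hY' : Y * (1 - t) = 6 * t)
    (hRD : Z - 2 * t * n * a ^ 2 - (1 - t) * (1 - 2 * t) * a ^ 2
        - 2 * (1 - t) * n - Q - 3 * (1 - t) * n - 3 * t ^ 2 * (a ^ 2) ^ 2
        + 3 * t * (1 - t) * a ^ 2 - 3 * t * (1 - 2 * t) * a ^ 2 + 4 * n * (1 + t)
        - Y * (((1 - 2 * t) * a + w) ^ 2 + n ^ 2) = 0) :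
    (1 + a) ^ 2 * ((1 - t) * (2 * (1 - t) + (1 - 4 * t) * a ^ 2) *
      ((1 - 16 * t + 24 * t ^ 2) * a ^ 2
      + 8 * (1 - t) * (1 - 2 * t) * a + 2 * (1 - t) * (3 - 4 * t))
      + (1 - t) ^ 2 * (4 * (1 - t) + 3 * (1 - 3 * t) * a - (1 - t) * a ^ 2) ^ 2
      - (1 + t) * (2 * (1 - t) + (1 - 4 * t) * a ^ 2) * ((2 * (1 - t) + (1 - 4 * t) * a) ^ 2
        + (1 - t) ^ 2 * (a - 1) ^ 2)) = 0 := by
  have e1 : (9 * w * (1 - t)) * (Z - 2 * t * n * a ^ 2 - (1 - t) * (1 - 2 * t) * a ^ 2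
      - 2 * (1 - t) * n - Q - 3 * (1 - t) * n - 3 * t ^ 2 * (a ^ 2) ^ 2
      + 3 * t * (1 - t) * a ^ 2 - 3 * t * (1 - 2 * t) * a ^ 2 + 4 * n * (1 + t)
      - Y * (((1 - 2 * t) * a + w) ^ 2 + n ^ 2)) = 0 := by
    rw [hRD, mul_zero]
  have e2 : (9 * w * (1 - t)) * (Z - 2 * t * n * a ^ 2 - (1 - t) * (1 - 2 * t) * a ^ 2
      - 2 * (1 - t) * n - Q - 3 * (1 - t) * n - 3 * t ^ 2 * (a ^ 2) ^ 2
      + 3 * t * (1 - t) * a ^ 2 - 3 * t * (1 - 2 * t) * a ^ 2 + 4 * n * (1 + t)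
      - Y * (((1 - 2 * t) * a + w) ^ 2 + n ^ 2)) =
      9 * (1 - t) * (Z * w) - 9 * w * (Q * (1 - t))
      - 9 * w * (Y * (1 - t)) * (((1 - 2 * t) * a + w) ^ 2 + n ^ 2)
      + (9 * w * (1 - t)) * (- 2 * t * n * a ^ 2 - (1 - t) * (1 - 2 * t) * a ^ 2
      - 2 * (1 - t) * n - 3 * (1 - t) * n - 3 * t ^ 2 * (a ^ 2) ^ 2
      + 3 * t * (1 - t) * a ^ 2 - 3 * t * (1 - 2 * t) * a ^ 2 + 4 * n * (1 + t)) := by
    ring
  rw [e2, hZ', hQ', hY', hn', hw'] at e1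
  linear_combination e1

theorem st_PMAX : ST_PMAX := by
  intro t w n b ht ht1 hw hn hm hR hRD hA
  obtain ⟨hn', hw', him, hre⟩ := relD2_parts ht1 hn hm hR
  have hn0 : 0 ≤ -n := le_trans (norm_nonneg _) hA
  by_contra hne
  have hneg : n < 0 := lt_of_le_of_ne (by linarith) hne
  set M := ‖b‖ ^ 2 with hM
  have hM1 : M < 1 := by
    by_contra h
    have := mul_nonneg (by linarith : (0 : ℝ) ≤ 1 - t) (by linarith : (0 : ℝ) ≤ M - 1)
    nlinarith
  have hb : b.im = 0 := by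
    rcases mul_eq_zero.mp him with h | h
    · exact h
    · exfalso
      rcases mul_eq_zero.mp h with h' | h'
      · rcases mul_eq_zero.mp h' with h'' | h''
        · linarith
        · linarith
      · linarith
  have hMa : M = b.re ^ 2 := by
    rw [hM, Complex.sq_norm, Complex.normSq_apply, hb]
    ring
  set a := b.re with ha
  have hM4 : ‖b‖ ^ 4 = M ^ 2 := by rw [hM]; ring
  have h1 : (((1 - 2 * t : ℝ) : ℂ) * b + (w : ℂ)).im = 0 := by
    simp [Complex.add_im, Complex.mul_im, hb]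
  have h2 : (((1 - 2 * t : ℝ) : ℂ) * b + (w : ℂ)).re = (1 - 2 * t) * a + w := by
    rw [Complex.add_re, Complex.re_ofReal_mul, Complex.ofReal_re]
  rw [norm_real_part h1, h2] at hA
  have h3 : ‖((1 - 2 * t : ℝ) : ℂ) * b + (w : ℂ)‖ ^ 2 = ((1 - 2 * t) * a + w) ^ 2 := by
    rw [norm_real_part h1, h2, sq_abs]
  have h4 : ‖2 * (((1 - 2 * t : ℝ) : ℂ) * b + (w : ℂ)) - ((t * M : ℝ) : ℂ) * b
        + ((1 - t : ℝ) : ℂ) * b‖ ^ 2 =
      (2 * ((1 - 2 * t) * a + w) - t * M * a + (1 - t) * a) ^ 2 := by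
    have h5 : (2 * (((1 - 2 * t : ℝ) : ℂ) * b + (w : ℂ)) - ((t * M : ℝ) : ℂ) * b
        + ((1 - t : ℝ) : ℂ) * b).im = 0 := by
      rw [Complex.add_im, Complex.sub_im, Complex.im_ofReal_mul, Complex.im_ofReal_mul, hb,
        Complex.mul_im, h1]
      simp
    have h6 : (2 * (((1 - 2 * t : ℝ) : ℂ) * b + (w : ℂ)) - ((t * M : ℝ) : ℂ) * b
        + ((1 - t : ℝ) : ℂ) * b).re = 2 * ((1 - 2 * t) * a + w) - t * M * a + (1 - t) * a := by
      rw [Complex.add_re, Complex.sub_re, Complex.re_ofReal_mul, Complex.re_ofReal_mul,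
        Complex.mul_re, h2]
      simp
      rfl
    rw [norm_real_part h5, h6, sq_abs]
  unfold RelDD at hRD
  rw [hM4, ← hM, h3, h4] at hRD
  set Z := (1 - t) * (2 * ((1 - 2 * t) * a + w) - t * M * a + (1 - t) * a) ^ 2 / w with hZ
  set Q := 9 * t * n * w / (1 - t) with hQ
  set Y := 6 * t / (1 - t) with hY
  have hZ' : Z * w = (1 - t) * (2 * ((1 - 2 * t) * a + w) - t * M * a + (1 - t) * a) ^ 2 :=
    div_mul_cancel₀ _ hw.ne'
  have hQ' : Q * (1 - t) = 9 * t * n * w := div_mul_cancel₀ _ (by linarith)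
  have hY' : Y * (1 - t) = 6 * t := div_mul_cancel₀ _ (by linarith)
  clear_value Z Q Y
  rw [hMa] at hn' hw' hM1 hRD hZ'
  have ha1 : 0 < 1 + a := by
    by_contra h
    nlinarith
  have hK := relDD_real hn' hw' hZ' hQ' hY' (by linarith [hRD])
  have hK2 := (mul_eq_zero.mp hK).resolve_left (pow_ne_zero 2 ha1.ne')
  -- the parameter `r`
  have hrn : (1 - 2 * t) * a + w = ((1 - 2 * t) * a + w) / n * n := (div_mul_cancel₀ _ hne).symm
  have hr1 : |((1 - 2 * t) * a + w) / n| ≤ 1 := by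
    rw [abs_div, abs_of_neg hneg]
    exact (div_le_one (neg_pos.mpr hneg)).mpr hA
  generalize ((1 - 2 * t) * a + w) / n = r at hrn hr1
  rw [hw', hn'] at hrn
  have h7 : 2 * (1 - t) + (1 - 4 * t) * a = r * (1 - t) * (a - 1) := by
    have : (1 + a) * (2 * (1 - t) + (1 - 4 * t) * a) = (1 + a) * (r * (1 - t) * (a - 1)) := by
      linear_combination 3 * hrn
    exact mul_left_cancel₀ ha1.ne' this
  exact pmax_end ht ht1 hr1 h7 hK2

/-- row PMIN0, case `t c = 3 - 5 t`, `ε = 0` -/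
theorem pmin0_i {t n β c X Y : ℝ} (ht : 0 < t) (ht1 : t < 1)
    (hn : t * n = (1 - t) * (1 - 2 * t)) (hc : t * c = 3 - 5 * t)
    (hB : t ^ 2 * β ^ 2 = (1 - t) ^ 2) (hX : t ^ 2 * X = t ^ 2 * c ^ 2)
    (hY : Y * (1 - t) = 6 * t)
    (h : -(2 * t * n * c) + (1 - t) * (0 - (1 - t) * c + t * β ^ 2 + t * (X - c ^ 2) - 2 * n)
        = 3 * (1 - t) * n + 3 * t * (1 - 2 * t) * β ^ 2 + 3 * t ^ 2 * β ^ 2 * c
          - 3 * t * (1 - t) * β ^ 2
          - 4 * n * (1 + t) + Y * ((1 - 2 * t) ^ 2 * β ^ 2 + n ^ 2)) :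
    (1 - 2 * t) * (5 - 9 * t) = 0 := by
  have e1 : (1 - t) * t ^ 2 * ((-(2 * t * n * c) + (1 - t) * (0 - (1 - t) * c + t * β ^ 2
        + t * (X - c ^ 2) - 2 * n))
        - (3 * (1 - t) * n + 3 * t * (1 - 2 * t) * β ^ 2 + 3 * t ^ 2 * β ^ 2 * c
          - 3 * t * (1 - t) * β ^ 2
          - 4 * n * (1 + t) + Y * ((1 - 2 * t) ^ 2 * β ^ 2 + n ^ 2))) = 0 := by
    rw [h, sub_self, mul_zero]
  have e2 : (1 - t) * t ^ 2 * ((-(2 * t * n * c) + (1 - t) * (0 - (1 - t) * c + t * β ^ 2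
        + t * (X - c ^ 2) - 2 * n))
        - (3 * (1 - t) * n + 3 * t * (1 - 2 * t) * β ^ 2 + 3 * t ^ 2 * β ^ 2 * c
          - 3 * t * (1 - t) * β ^ 2
          - 4 * n * (1 + t) + Y * ((1 - 2 * t) ^ 2 * β ^ 2 + n ^ 2))) =
      (1 - t) * (-2 * t * (t * n) * (t * c) - (1 - t) ^ 2 * t * (t * c)
        + (1 - t) * t * (t ^ 2 * β ^ 2) + (1 - t) * t * (t ^ 2 * X - t ^ 2 * c ^ 2)
        - 2 * (1 - t) * t * (t * n) - 3 * (1 - t) * t * (t * n)
        - 3 * t * (1 - 2 * t) * (t ^ 2 * β ^ 2)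
        - 3 * t * (t ^ 2 * β ^ 2) * (t * c) + 3 * t * (1 - t) * (t ^ 2 * β ^ 2)
        + 4 * (1 + t) * t * (t * n))
        - (Y * (1 - t)) * ((1 - 2 * t) ^ 2 * (t ^ 2 * β ^ 2) + (t * n) ^ 2) := by
    ring
  rw [e2, hX, hn, hc, hB, hY] at e1
  have e3 : (t * (1 - t) ^ 2) * ((1 - 2 * t) * (5 - 9 * t)) = 0 := by
    linear_combination (-1 / 6 : ℝ) * e1
  exact (mul_eq_zero.mp e3).resolve_left (mul_pos ht (pow_pos (by linarith) 2)).ne'

/-- row PMIN0, case `t c + (3 - 5 t) = 2 t β²`, `ε = 0` -/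
theorem pmin0_ii {t n β c X Y : ℝ} (ht1 : t < 1)
    (hn : (5 * t - 2) * n = (1 - t) * (2 * t - 1)) (hc : (5 * t - 2) * c = 11 * t - 5)
    (hB : (5 * t - 2) * (t * β ^ 2) = (1 - t) * (7 * t - 3)) (hX : t ^ 2 * X = (3 - 5 * t) ^ 2)
    (hY : Y * (1 - t) = 6 * t)
    (h : -(2 * t * n * c) + (1 - t) * (0 - (1 - t) * c + t * β ^ 2 + t * (X - c ^ 2) - 2 * n)
        = 3 * (1 - t) * n + 3 * t * (1 - 2 * t) * β ^ 2 + 3 * t ^ 2 * β ^ 2 * c
          - 3 * t * (1 - t) * β ^ 2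
          - 4 * n * (1 + t) + Y * ((1 - 2 * t) ^ 2 * β ^ 2 + n ^ 2)) :
    (2 * t - 1) * (2 - 17 * t + 51 * t ^ 2 - 67 * t ^ 3 + 35 * t ^ 4) = 0 := by
  have e1 : (1 - t) * t * (5 * t - 2) ^ 2 * ((-(2 * t * n * c) + (1 - t) * (0 - (1 - t) * c
        + t * β ^ 2 + t * (X - c ^ 2) - 2 * n))
        - (3 * (1 - t) * n + 3 * t * (1 - 2 * t) * β ^ 2 + 3 * t ^ 2 * β ^ 2 * c
          - 3 * t * (1 - t) * β ^ 2
          - 4 * n * (1 + t) + Y * ((1 - 2 * t) ^ 2 * β ^ 2 + n ^ 2))) = 0 := by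
    rw [h, sub_self, mul_zero]
  have e2 : (1 - t) * t * (5 * t - 2) ^ 2 * ((-(2 * t * n * c) + (1 - t) * (0 - (1 - t) * c
        + t * β ^ 2 + t * (X - c ^ 2) - 2 * n))
        - (3 * (1 - t) * n + 3 * t * (1 - 2 * t) * β ^ 2 + 3 * t ^ 2 * β ^ 2 * c
          - 3 * t * (1 - t) * β ^ 2
          - 4 * n * (1 + t) + Y * ((1 - 2 * t) ^ 2 * β ^ 2 + n ^ 2))) =
      -2 * t ^ 2 * (1 - t) * ((5 * t - 2) * n) * ((5 * t - 2) * c)
        + (1 - t) ^ 2 * t * (5 * t - 2) * (-(1 - t) * ((5 * t - 2) * c)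
          + (5 * t - 2) * (t * β ^ 2) - 2 * ((5 * t - 2) * n))
        + (1 - t) ^ 2 * (5 * t - 2) ^ 2 * (t ^ 2 * X)
        - (1 - t) ^ 2 * t ^ 2 * ((5 * t - 2) * c) ^ 2
        - 3 * (1 - t) ^ 2 * t * (5 * t - 2) * ((5 * t - 2) * n)
        - 3 * (1 - 2 * t) * t * (5 * t - 2) * (1 - t) * ((5 * t - 2) * (t * β ^ 2))
        - 3 * t ^ 2 * (1 - t) * ((5 * t - 2) * (t * β ^ 2)) * ((5 * t - 2) * c)
        + 3 * (1 - t) ^ 2 * t * (5 * t - 2) * ((5 * t - 2) * (t * β ^ 2))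
        + 4 * (1 + t) * t * (5 * t - 2) * (1 - t) * ((5 * t - 2) * n)
        - (Y * (1 - t)) * ((1 - 2 * t) ^ 2 * (5 * t - 2) * ((5 * t - 2) * (t * β ^ 2))
          + t * ((5 * t - 2) * n) ^ 2) := by
    ring
  rw [e2, hX, hn, hc, hB, hY] at e1
  have e3 : (1 - t) * ((2 * t - 1) * (2 - 17 * t + 51 * t ^ 2 - 67 * t ^ 3 + 35 * t ^ 4)) = 0 := by
    linear_combination (-1 / 18 : ℝ) * e1
  exact (mul_eq_zero.mp e3).resolve_left (by linarith)

/-- the quartic is negative on `[1/3, 2/5]` -/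
theorem quart_neg {t : ℝ} (h1 : 1 / 3 ≤ t) (h2 : t ≤ 2 / 5) :
    2 - 17 * t + 51 * t ^ 2 - 67 * t ^ 3 + 35 * t ^ 4 < 0 := by
  have hs : 0 ≤ t - 1 / 3 := by linarith
  have hs2 : 0 ≤ 1 / 15 - (t - 1 / 3) := by linarith
  have e : 2 - 17 * t + 51 * t ^ 2 - 67 * t ^ 3 + 35 * t ^ 4 =
      -4 / 81 + (22 / 45 - 4 / 27) * (t - 1 / 3)
        - (22 / 3) * ((t - 1 / 3) * (1 / 15 - (t - 1 / 3)))
        - (t - 1 / 3) ^ 3 * (61 / 3 - 35 * (t - 1 / 3)) := by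
    ring
  have h3 : 0 ≤ (t - 1 / 3) * (1 / 15 - (t - 1 / 3)) := mul_nonneg hs hs2
  have h4 : 0 ≤ (t - 1 / 3) ^ 3 * (61 / 3 - 35 * (t - 1 / 3)) :=
    mul_nonneg (pow_nonneg hs 3) (by linarith)
  rw [e]
  linarith

theorem pow_pos_of_ne_zero' (t : ℝ) (h : t ≠ 1 / 2) : 0 < (1 - 2 * t) ^ 2 :=
  sq_pos_of_ne_zero (fun h' => h (by linarith))

theorem st_PMIN0 : ST_PMIN0 := by
  intro t n β c ε ht ht1 hβ hβc hε hn hc hcase hcase2 hbig hle
  have hn0 : 0 ≤ n := le_trans (mul_nonneg (abs_nonneg _) hβ) hle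
  have hc' : (1 - t) * c = (1 - t) + 3 * n := by linarith
  have hB : t * β ^ 2 = n + (1 - t) := by linarith
  have hy : 0 < 1 - t := by linarith
  have h1' : c = β ^ 2 → n * (1 - 4 * t) = -((1 - t) * (1 - 2 * t)) := by
    intro h
    have a2 : t * (1 - t) * β ^ 2 = (1 - t) * (n + (1 - t)) := by linear_combination (1 - t) * hB
    have a3 : t * (1 - t) * c = t * ((1 - t) + 3 * n) := by linear_combination t * hc'
    rw [h, a2] at a3
    linarith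
  have hfin : t = 1 / 3 → n = 2 / 3 → 8 * (1 - t) ^ 3 ≤ 3 * ((1 - t) + n * t) ^ 2 := by
    intro h h'
    rw [h, h']
    norm_num
  have hX' : t ^ 2 * ((3 - 5 * t) ^ 2 / t ^ 2) = (3 - 5 * t) ^ 2 :=
    mul_div_cancel₀ _ (pow_ne_zero 2 ht.ne')
  have hY' : 6 * t / (1 - t) * (1 - t) = 6 * t := div_mul_cancel₀ _ hy.ne'
  rcases hcase with hi | hii
  · -- `t c = 3 - 5 t`
    have h2 : t * n = (1 - t) * (1 - 2 * t) := by
      have : t * ((1 - t) * c) = t * ((1 - t) + 3 * n) := by rw [hc']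
      have h3 : t * ((1 - t) * c) = (1 - t) * (3 - 5 * t) := by linear_combination (1 - t) * hi
      linarith
    have ht2 : t ≤ 1 / 2 := by
      by_contra h
      have a1 : 0 ≤ t * n := mul_nonneg ht.le hn0
      have a2 : 0 < (1 - t) * (2 * t - 1) := mul_pos hy (by linarith)
      linarith
    rcases ht2.eq_or_lt with he | hlt
    · left
      rw [he] at h2
      norm_num at h2
      linarith
    rcases hcase2 with hε0 | hcβ
    · exfalso
      rw [hε0] at hbig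
      have hB2 : t ^ 2 * β ^ 2 = (1 - t) ^ 2 := by linear_combination t * hB + h2
      have hcc : t ^ 2 * ((3 - 5 * t) ^ 2 / t ^ 2) = t ^ 2 * c ^ 2 := by
        rw [hX', ← hi]; ring
      rcases mul_eq_zero.mp (pmin0_i ht ht1 h2 hi hB2 hcc hY' hbig) with h | h
      · linarith
      · linarith
    · have h3 := h1' hcβ
      have h4 : (1 - t) * (1 - 2 * t) * (1 - 3 * t) = 0 := by
        linear_combination t * h3 - (1 - 4 * t) * h2
      have ht3 : t = 1 / 3 := by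
        rcases mul_eq_zero.mp h4 with h | h
        · rcases mul_eq_zero.mp h with h' | h'
          · linarith
          · linarith
        · linarith
      have hn3 : n = 2 / 3 := by
        rw [ht3] at h2
        norm_num at h2
        linarith
      right
      exact hfin ht3 hn3
  · -- `t c + (3 - 5 t) = 2 t β²`
    have h2 : (5 * t - 2) * n = (1 - t) * (2 * t - 1) := by
      linear_combination (1 - t) * hii - t * hc' + 2 * (1 - t) * hB
    rcases eq_or_ne t (1 / 2) with he | hne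
    · left
      rw [he] at h2
      norm_num at h2
      linarith
    rcases hcase2 with hε0 | hcβ
    · exfalso
      rw [hε0] at hbig
      have hc2 : (5 * t - 2) * c = 11 * t - 5 := by
        have : (1 - t) * ((5 * t - 2) * c) = (1 - t) * (11 * t - 5) := by
          linear_combination (5 * t - 2) * hc' + 3 * h2
        exact mul_left_cancel₀ hy.ne' this
      have hB2 : (5 * t - 2) * (t * β ^ 2) = (1 - t) * (7 * t - 3) := by
        linear_combination (5 * t - 2) * hB + h2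
      have hz := pmin0_ii ht1 h2 hc2 hB2 hX' hY' hbig
      have hq0 := (mul_eq_zero.mp hz).resolve_left (fun h => hne (by linarith))
      -- the range of `t`
      have h3 : (1 - 2 * t) ^ 2 * β ^ 2 ≤ n ^ 2 := by
        have := mul_self_le_mul_self (mul_nonneg (abs_nonneg _) hβ) hle
        have h4 : |1 - 2 * t| * β * (|1 - 2 * t| * β) = (1 - 2 * t) ^ 2 * β ^ 2 := by
          rw [← sq_abs (1 - 2 * t)]; ring
        rw [h4] at this
        linarith [sq n]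
      have h5 : (t * (5 * t - 2) ^ 2) * ((1 - 2 * t) ^ 2 * β ^ 2) ≤
          (t * (5 * t - 2) ^ 2) * n ^ 2 :=
        mul_le_mul_of_nonneg_left h3 (mul_nonneg ht.le (sq_nonneg _))
      have h6 : (t * (5 * t - 2) ^ 2) * ((1 - 2 * t) ^ 2 * β ^ 2) =
          (1 - 2 * t) ^ 2 * (5 * t - 2) * ((1 - t) * (7 * t - 3)) := by
        rw [← hB2]; ring
      have h7 : (t * (5 * t - 2) ^ 2) * n ^ 2 = t * ((1 - t) * (2 * t - 1)) ^ 2 := by
        rw [← h2]; ring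
      rw [h6, h7] at h5
      have hpos : 0 < (1 - 2 * t) ^ 2 * (1 - t) :=
        mul_pos (pow_pos_of_ne_zero' t hne) hy
      have h8 : ((1 - 2 * t) ^ 2 * (1 - t)) * ((2 * t - 1) * (3 * t - 1)) ≤
          ((1 - 2 * t) ^ 2 * (1 - t)) * 0 := by
        have : ((1 - 2 * t) ^ 2 * (1 - t)) * ((2 * t - 1) * (3 * t - 1)) =
          (1 / 6) * ((1 - 2 * t) ^ 2 * (5 * t - 2) * ((1 - t) * (7 * t - 3))
            - t * ((1 - t) * (2 * t - 1)) ^ 2) := by ring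
        rw [this]
        linarith
      have h9 := le_of_mul_le_mul_left h8 hpos
      have ht3 : 1 / 3 ≤ t := by
        by_contra h
        have := mul_pos (by linarith : (0 : ℝ) < 1 - 2 * t) (by linarith : (0 : ℝ) < 1 - 3 * t)
        linarith
      have ht4 : t ≤ 1 / 2 := by
        by_contra h
        have := mul_pos (by linarith : (0 : ℝ) < 2 * t - 1) (by linarith : (0 : ℝ) < 3 * t - 1)
        linarith
      have ht5 : t < 1 / 2 := lt_of_le_of_ne ht4 hne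
      have ht6 : t ≤ 2 / 5 := by
        by_contra h
        have a1 : 0 ≤ (5 * t - 2) * n := mul_nonneg (by linarith) hn0
        have a2 : 0 < (1 - t) * (1 - 2 * t) := mul_pos hy (by linarith)
        linarith
      have := quart_neg ht3 ht6
      linarith
    · have h3 := h1' hcβ
      have h4 : n * (1 - 3 * t) = 0 := by linear_combination (1 / 3 : ℝ) * h3 - (1 / 3 : ℝ) * h2
      rcases mul_eq_zero.mp h4 with h | h
      · left; exact h
      · right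
        have ht3 : t = 1 / 3 := by linarith
        rw [ht3] at h2
        exact hfin ht3 (by norm_num at h2; linarith)

end N248
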