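import Pool.Agent.Helper5.N2.Stmts2

/-! # Row SLOPE: blow-up in finite distance is impossible -/

set_option autoImplicit false

namespace N248
open N2

/-- a real smooth function and its real derivative -/
theorem real_fderiv {F : Sm} (hF : cj F = F) (p : ℝ × ℝ) (e : ℝ × ℝ) :
    ∃ d : ℝ, fderiv ℝ F.val p e = (d : ℂ) ∧
      HasDerivAt (fun s : ℝ => (F.val (p + s • e)).re) d 0 := by
  have hd : HasFDerivAt F.val (fderiv ℝ F.val p) p := (F.diff p).hasFDerivAt
  have hline : HasDerivAt (fun s : ℝ => p + s • e) e 0 := by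
    have := (((hasDerivAt_id (0 : ℝ)).smul_const e).const_add p)
    simpa using this
  have h1 : HasDerivAt (fun s : ℝ => F.val (p + s • e)) (fderiv ℝ F.val p e) 0 := by
    have hd' : HasFDerivAt F.val (fderiv ℝ F.val p) (p + (0 : ℝ) • e) := by simpa using hd
    exact hd'.comp_hasDerivAt (0 : ℝ) hline
  have hre : HasDerivAt (fun s : ℝ => (F.val (p + s • e)).re) (fderiv ℝ F.val p e).re 0 := by
    have := Complex.reCLM.hasFDerivAt.comp_hasDerivAt (0 : ℝ) h1
    exact this
  have him : HasDerivAt (fun s : ℝ => (F.val (p + s • e)).im) (fderiv ℝ F.val p e).im 0 := by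
    have := Complex.imCLM.hasFDerivAt.comp_hasDerivAt (0 : ℝ) h1
    exact this
  have hz : (fun s : ℝ => (F.val (p + s • e)).im) = fun _ => (0 : ℝ) := by
    funext s
    have h2 : (starRingEnd ℂ) (F.val (p + s • e)) = F.val (p + s • e) := by
      conv_rhs => rw [← hF]
      rfl
    exact Complex.conj_eq_iff_im.mp h2
  rw [hz] at him
  have h3 : (fderiv ℝ F.val p e).im = 0 := him.unique (hasDerivAt_const _ _)
  refine ⟨(fderiv ℝ F.val p e).re, ?_, hre⟩
  apply Complex.ext
  · simp
  · simpa using h3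

theorem st_SLOPE : ST_SLOPE := by
  intro F δ M hF hpos hδ hbig p0
  by_contra hM
  rw [not_le] at hM
  set f : ℝ × ℝ → ℝ := fun p => (F.val p).re with hf
  have hfc : Continuous f := Complex.continuous_re.comp F.diff.continuous
  have hfpos : ∀ p, 0 < f p := fun p => hpos p
  set v : ℝ × ℝ → ℝ := fun p => 1 / Real.sqrt (f p) with hv
  have hvc : Continuous v := by
    refine continuous_const.div (Real.continuous_sqrt.comp hfc) fun p => ?_
    exact (Real.sqrt_pos.mpr (hfpos p)).ne'
  have hvpos : ∀ p, 0 < v p := fun p => div_pos one_pos (Real.sqrt_pos.mpr (hfpos p))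
  set ε := Real.sqrt δ / 4 with hε
  have hεpos : 0 < ε := div_pos (Real.sqrt_pos.mpr hδ) (by norm_num)
  set φ : ℝ × ℝ → ℝ := fun p => v p + ε * ‖p - p0‖ with hφ
  have hφc : Continuous φ :=
    hvc.add (continuous_const.mul (continuous_id.sub continuous_const).norm)
  -- the minimum
  have hmin : ∃ q, ∀ p, φ q ≤ φ p := by
    obtain ⟨q, hq, hq'⟩ := (isCompact_closedBall p0 (v p0 / ε)).exists_isMinOn
      ⟨p0, Metric.mem_closedBall_self (div_nonneg (hvpos p0).le hεpos.le)⟩ hφc.continuousOn
    refine ⟨q, fun p => ?_⟩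
    by_cases hp : p ∈ Metric.closedBall p0 (v p0 / ε)
    · exact hq' hp
    · rw [Metric.mem_closedBall, dist_eq_norm, not_le] at hp
      have h1 : φ q ≤ φ p0 :=
        hq' (Metric.mem_closedBall_self (div_nonneg (hvpos p0).le hεpos.le))
      have h2 : φ p0 = v p0 := by
        show v p0 + ε * ‖p0 - p0‖ = v p0
        rw [sub_self, norm_zero, mul_zero, add_zero]
      have h3 : v p0 < ε * ‖p - p0‖ := by
        have := (div_lt_iff₀ hεpos).mp hp
        linarith
      have h4 : ε * ‖p - p0‖ ≤ φ p := by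
        show ε * ‖p - p0‖ ≤ v p + ε * ‖p - p0‖
        linarith [hvpos p]
      linarith
  obtain ⟨q, hq⟩ := hmin
  have hqM : M < f q := by
    have h1 : v q ≤ v p0 := by
      have h2 := hq p0
      have h3 : φ p0 = v p0 := by
        show v p0 + ε * ‖p0 - p0‖ = v p0
        rw [sub_self, norm_zero, mul_zero, add_zero]
      have h4 : v q ≤ φ q := by
        show v q ≤ v q + ε * ‖q - p0‖
        have := mul_nonneg hεpos.le (norm_nonneg (q - p0))
        linarith
      linarith
    have h2 : Real.sqrt (f p0) ≤ Real.sqrt (f q) := by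
      have := one_div_le_one_div_of_le (hvpos q) h1
      simpa [hv] using this
    have h3 : f p0 ≤ f q := (Real.sqrt_le_sqrt_iff (hfpos q).le).mp h2
    exact lt_of_lt_of_le hM h3
  -- the derivative in each direction of norm one is small
  have hdir : ∀ e : ℝ × ℝ, ‖e‖ = 1 → ∀ d : ℝ,
      HasDerivAt (fun s : ℝ => (F.val (q + s • e)).re) d 0 →
      -(d / (2 * (f q * Real.sqrt (f q)))) ≥ -ε := by
    intro e he d hd
    have h0 : HasDerivAt (fun s : ℝ => v (q + s • e)) (-(d / (2 * (f q * Real.sqrt (f q))))) 0 := by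
      have h1 : HasDerivAt (fun s : ℝ => Real.sqrt (f (q + s • e))) (d / (2 * Real.sqrt (f q))) 0 := by
        have h2 := HasDerivAt.sqrt hd (by
          have := (hfpos (q + (0 : ℝ) • e)).ne'
          exact this)
        have h3 : (F.val (q + (0 : ℝ) • e)).re = f q := by
          rw [zero_smul, add_zero]
        rw [h3] at h2
        exact h2
      have h4 : Real.sqrt (f (q + (0 : ℝ) • e)) ≠ 0 := (Real.sqrt_pos.mpr (hfpos _)).ne'
      have h5 := h1.inv h4
      have h6 : (fun s : ℝ => v (q + s • e)) = (fun s : ℝ => Real.sqrt (f (q + s • e)))⁻¹ := by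
        funext s
        show 1 / Real.sqrt (f (q + s • e)) = (Real.sqrt (f (q + s • e)))⁻¹
        rw [one_div]
      rw [h6]
      have h7 : -(d / (2 * (f q * Real.sqrt (f q)))) =
          -(d / (2 * Real.sqrt (f q))) / Real.sqrt (f (q + (0 : ℝ) • e)) ^ 2 := by
        rw [zero_smul, add_zero, Real.sq_sqrt (hfpos q).le, neg_div, div_div]
        congr 2
        ring
      rw [h7]
      exact h5
    -- difference quotients
    have h8 : ∀ s : ℝ, 0 < s → -ε ≤ (v (q + s • e) - v q) / s := by
      intro s hs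
      rw [le_div_iff₀ hs]
      have h9 := hq (q + s • e)
      have h10 : ‖q + s • e - p0‖ ≤ ‖q - p0‖ + s := by
        have : q + s • e - p0 = (q - p0) + s • e := by abel
        rw [this]
        refine (norm_add_le _ _).trans ?_
        rw [norm_smul, he, mul_one, Real.norm_eq_abs, abs_of_pos hs]
      have h11 : v q + ε * ‖q - p0‖ ≤ v (q + s • e) + ε * ‖q + s • e - p0‖ := h9
      have h12 := mul_le_mul_of_nonneg_left h10 hεpos.le
      linarith
    have h9 := h0.tendsto_slope_zero_right
    refine ge_of_tendsto h9 ?_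
    filter_upwards [self_mem_nhdsWithin] with s hs
    have hs' : 0 < s := hs
    have := h8 s hs'
    rw [zero_add, smul_eq_mul]
    show -ε ≤ s⁻¹ * (v (q + s • e) - v (q + (0 : ℝ) • e))
    rw [zero_smul, add_zero, mul_comm, ← div_eq_mul_inv]
    exact this
  set S := f q * Real.sqrt (f q) with hS
  have hSpos : 0 < S := mul_pos (hfpos q) (Real.sqrt_pos.mpr (hfpos q))
  have hS2 : S ^ 2 = f q ^ 3 := by
    rw [hS, mul_pow, Real.sq_sqrt (hfpos q).le]; ring
  have hsmall : ∀ e : ℝ × ℝ, ‖e‖ = 1 → ∀ d : ℝ, fderiv ℝ F.val q e = (d : ℂ) →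
      d ^ 2 ≤ (2 * S * ε) ^ 2 := by
    intro e he d hd
    obtain ⟨d', hd1, hd2⟩ := real_fderiv hF q e
    have hdd : d' = d := by
      have := hd1.symm.trans hd
      exact_mod_cast this
    rw [hdd] at hd2
    have h1 := hdir e he d hd2
    obtain ⟨d'', hd3, hd4⟩ := real_fderiv hF q (-e)
    have hdd2 : d'' = -d := by
      have h2 : ((d'' : ℝ) : ℂ) = -((d : ℝ) : ℂ) := by
        rw [← hd3, map_neg, hd]
      exact_mod_cast h2
    rw [hdd2] at hd4
    have h3 := hdir (-e) (by rw [norm_neg, he]) (-d) hd4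
    have h4 : d / (2 * S) ≤ ε := by linarith
    have h5 : -ε ≤ d / (2 * S) := by
      rw [neg_div] at h3
      linarith
    have h6 : d ≤ 2 * S * ε := by
      have := (div_le_iff₀ (by positivity : (0 : ℝ) < 2 * S)).mp h4
      linarith
    have h7 : -(2 * S * ε) ≤ d := by
      have := (le_div_iff₀ (by positivity : (0 : ℝ) < 2 * S)).mp h5
      linarith
    exact sq_le_sq' h7 h6
  obtain ⟨a, ha, -⟩ := real_fderiv hF q (1, 0)
  obtain ⟨b, hb, -⟩ := real_fderiv hF q (0, 1)
  have ha2 := hsmall (1, 0) (by simp [Prod.norm_def]) a ha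
  have hb2 := hsmall (0, 1) (by simp [Prod.norm_def]) b hb
  have h1 := hbig q hqM
  have h2 : ‖ev q (D F)‖ ^ 2 = (a ^ 2 + b ^ 2) / 4 := by
    rw [ev_val, D_val, ha, hb, Complex.sq_norm, Complex.normSq_apply]
    simp
    ring
  rw [h2] at h1
  have h3 : (ev q F).re = f q := rfl
  rw [h3, ← hS2] at h1
  have h4 : ε ^ 2 = δ / 16 := by
    rw [hε, div_pow, Real.sq_sqrt hδ.le]; norm_num
  have h5 : (2 * S * ε) ^ 2 = S ^ 2 * δ / 4 := by
    rw [mul_pow, h4]; ring
  rw [h5] at ha2 hb2
  have h6 : 0 < δ * S ^ 2 := by positivity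
  linarith

end N248
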